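import Pool.Agent.Y254.HK.Stm

/-!
# Splitting a law into two classes
-/

set_option autoImplicit false

open Finset
open scoped Classical

namespace Pool.Agent.Y655.HKTWO

open Pool.Agent.W904.AK Pool.Agent.W46.HD Pool.Agent.W46.HM Pool.Agent.Y254HK

theorem hc {Ω' : Type} [Fintype Ω'] {α : Type} {p : Ω' → ℝ} (hp : IsLaw p) (U : Ω' → Bool)
    (f : Ω' → α) : im p U true * H (cd p U true) f + im p U false * H (cd p U false) f =
      H p (fun x => (U x, f x)) - H p U := by
  rw [chain hp, ← sum_im_mul p U (fun u => H (cd p U u) f), Fintype.sum_bool]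

theorem t_two : S_TWO := by
  intro d n Ω _ A D b G hb hG p hp U M1 M0 h1 h0
  have hr : im p U true + im p U false = 1 := by
    have := sum_im_mul p U (fun _ => (1 : ℝ))
    rw [Fintype.sum_bool] at this
    simpa [hp.total] using this
  have g1 : im p U true * Lam A D b G (cd p U true) ≤ im p U true * M1 := by
    by_cases h : im p U true = 0
    · rw [h, zero_mul, zero_mul]
    · exact mul_le_mul_of_nonneg_left (h1 h) (im_nonneg hp _ _)
  have g0 : im p U false * Lam A D b G (cd p U false) ≤ im p U false * M0 := by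
    by_cases h : im p U false = 0
    · rw [h, zero_mul, zero_mul]
    · exact mul_le_mul_of_nonneg_left (h0 h) (im_nonneg hp _ _)
  have e1 := hc hp U (Prod.fst : Ω × Fin n → Ω)
  have e2 := hc hp U (Prod.snd : Ω × Fin n → Fin n)
  have e3 := hc hp U (id : Ω × Fin n → Ω × Fin n)
  have e4 := hc hp U (fun z : Ω × Fin n => (z.2, cell A D z.2 z.1))
  -- inequalities
  have i1 : H p (Prod.fst : Ω × Fin n → Ω) ≤ H p (fun x => (U x, x.1)) :=
    H_mono hp (Det.snd p U Prod.fst)
  have i2 : H p (fun x => (U x, x.1)) ≤ H p U + H p (Prod.fst : Ω × Fin n → Ω) :=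
    subadd hp (Det.refl p _)
  have i3 : H p (fun x => (U x, x.2)) ≤ H p U + H p (Prod.snd : Ω × Fin n → Fin n) :=
    subadd hp (Det.refl p _)
  have i4 : H p (fun x => (U x, id x)) = H p (id : Ω × Fin n → Ω × Fin n) :=
    H_congr hp (Det.snd p U id) (fun x y _ _ h => by
      have : x = y := h
      rw [this])
  have i5 : H p (fun x => (U x, (x.2, cell A D x.2 x.1))) + H p (Prod.snd : Ω × Fin n → Fin n) ≤
      H p (fun x => (x.2, cell A D x.2 x.1)) + H p (fun x => (U x, x.2)) :=
    submod' hp (Det.fst p Prod.snd (fun x => cell A D x.2 x.1)) (Det.snd p U Prod.snd)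
      (fun x y _ _ h => by
        simp only [Prod.mk.injEq] at h ⊢
        tauto)
  have e1' : im p U true * H (cd p U true) Prod.fst + im p U false * H (cd p U false) Prod.fst =
      H p (fun x => (U x, x.1)) - H p U := e1
  have e2' : im p U true * H (cd p U true) Prod.snd + im p U false * H (cd p U false) Prod.snd =
      H p (fun x => (U x, x.2)) - H p U := e2
  have hU := H_nonneg hp U
  have j1 : b * (H p (fun x => (U x, (x.2, cell A D x.2 x.1))) - H p (fun x => (U x, x.2))) ≤
      b * (H p (fun x => (x.2, cell A D x.2 x.1)) - H p (Prod.snd : Ω × Fin n → Fin n)) :=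
    mul_le_mul_of_nonneg_left (by linarith) hb
  have j2 : G * (H p (id : Ω × Fin n → Ω × Fin n) - H p (Prod.fst : Ω × Fin n → Ω)) ≤
      G * (H p (id : Ω × Fin n → Ω × Fin n) - H p (fun x => (U x, x.1)) + H p U) :=
    mul_le_mul_of_nonneg_left (by linarith) hG
  rw [i4] at e3
  have key : im p U true * Lam A D b G (cd p U true) + im p U false * Lam A D b G (cd p U false) =
      (H p (fun x => (U x, x.1)) - H p U) -
      b * ((H p (fun x => (U x, (x.2, cell A D x.2 x.1))) - H p U) -
        (H p (fun x => (U x, x.2)) - H p U)) -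
      G * (Real.log n - ((H p (id : Ω × Fin n → Ω × Fin n) - H p U) -
        (H p (fun x => (U x, x.1)) - H p U))) -
      ((H p (fun x => (U x, x.2)) - H p U) - ((H p (id : Ω × Fin n → Ω × Fin n) - H p U) -
        (H p (fun x => (U x, x.1)) - H p U))) := by
    rw [← e1', ← e2', ← e3, ← e4]
    unfold Lam aa hh lam mi
    have hr' : im p U false = 1 - im p U true := by linarith
    rw [hr']
    ring
  unfold Lam aa hh lam mi
  linarith

end Pool.Agent.Y655.HKTWO
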